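import Pool.Agent.H86.AY.ChainA

/-! Good assignments are hard, part 2: the chain argument with circuits as jumps. -/

namespace Pool.Agent.H73.AY

open Finset Matrix Pool.Agent.H73.QA Pool.Agent.H73.AD Pool.Agent.H73.AZ

set_option linter.unusedSectionVars false
set_option linter.deprecated false

variable {n k m : ℕ} {Y : Type} [Fintype Y] [DecidableEq Y] {p q r : ℕ}

section chain
variable {α κ Λ t u ε δ ν g : ℝ} {A : Set (Fin p → ℝ)} {G : Fin m → Clause n k}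
    {w : Fin p → List (Letter n m Y)} {T : Fin q → List (Gate n p Y)} {z : Cube n}

theorem ch_step (hP : ParY α κ Λ t u ε δ ν r A G w T z) (hg : (2 : ℝ) ^ (-u * n) < g)
    (hg1 : g ≤ 1) {a a' : Fin p → ℝ} {E E' : ℝ} {ψ ψ' : Cube n × Y → ℂ}
    (hn : NodeZ α κ Λ g A G w z a E ψ) (hI : TypeZ κ δ g G w z a E)
    (hn' : NodeZ α κ Λ g A G w z a' E' ψ') (o : Option (Fin q))
    (ho : (2 : ℝ) ^ (-u * n) / g < ‖inner ℂ (WithLp.toLp 2 ψ' : Sp n Y)
      (lin (circ (Letter.op G z) w z (Tw T o)) (WithLp.toLp 2 ψ))‖) :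
    TypeZ κ δ g G w z a' E' := by
  obtain ⟨f, φ, χ, c, hφ, hf, hf2, h1, hχ, hc, hNX⟩ := ch_core hP hg hg1 hn hI
  have hfew := ch_node_few hP (hg.le.trans hg1) hn
  have hfew' := ch_node_few hP (hg.le.trans hg1) hn'
  by_contra hI'
  obtain ⟨τ, hτ⟩ : ∃ τ : ℝ, τ = (2 : ℝ) ^ (-u * n) := ⟨_, rfl⟩
  have hτ0 : 0 < τ := by rw [hτ]; positivity
  have hκ := hP.hκ
  have hκ1 := hP.hκ1
  obtain ⟨hη0, hη1, hη4⟩ := num_etaZ hκ hτ0 hP.hΛ r
  have hz := hP.hz
  rw [← hτ] at hg hχ hNX ho hz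
  have hg0 : 0 < g := hτ0.trans hg
  have hd : 0 < κ * g / 8 := by positivity
  have hκτ : κ * τ ≤ τ := by nlinarith
  have hcd := circ_diff hP.hS z w hP.hw hP.hr (Tw T o) (ch_Tw_ok hP o) φ
  have hnχ := norm_circ (Letter.op G z) w z (Tw T o) (ch_Tw_ok hP o) χ
  have hflt := norm_circF δ w z (Tw T o) (ch_Tw_ok hP o) φ
  rw [hφ] at hflt
  have hNXo := hNX o
  unfold NX at hNXo
  have hNR0 := NR_nonneg G δ w z φ
  have hNR1 := NR_nonneg G δ w z (lin (circF G δ w z (Tw T o)) φ)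
  have hdf : ‖lin (circF G δ w z (Tw T o)) φ -
      lin (circ (Letter.op G z) w z (Tw T o)) φ‖ ≤ κ * τ / 1600 := by linarith
  rcases dichotomy (H := lin (Ham (Letter.flt G δ z) w a')) (lin_symm (ham_herm _ w a')) E' hd
    with h2 | h2
  · obtain ⟨f', φ', h3, h4, h5⟩ := h2
    exact hI' ⟨f', φ', h3, h4, h5⟩
  · obtain ⟨v, hv1, hv2⟩ := h2 (lin (circF G δ w z (Tw T o)) φ)
    have hvn : ‖v‖ ≤ 1 := hv1.trans hflt
    have hd1 : κ * g / 8 ≤ 1 := by
      have : κ * g ≤ 1 := mul_le_one₀ hκ1 hg0.le hg1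
      linarith
    have hNRv := hz.g2 a E f φ hn.mem hn.coeff hφ hf hfew hf2 o a' E' (κ * g / 8) v hn'.mem
      hn'.coeff hfew'
      (ch_node_bound hP hn') hd hd1 hvn hv2
    have hdiff := ch_ham_diff_le hP hn'.coeff hNRv
    obtain ⟨hψ1, hψ2, -⟩ := nodeZ_hilbert hn'
    have h3 := overlap_far (H := lin (Ham (Letter.op G z) w a'))
      (N := lin (Ham (Letter.flt G δ z) w a') - lin (Ham (Letter.op G z) w a'))
      (lin_symm (ham_herm _ w a'))
      ((lin_symm (ham_herm _ w a')).sub (lin_symm (ham_herm _ w a'))) hd hψ1 hψ2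
      (v := v) (u := lin (circF G δ w z (Tw T o)) φ) (by
        rw [LinearMap.sub_apply, add_sub_cancel]
        exact hv2)
    rw [LinearMap.sub_apply] at h3
    obtain ⟨B, hA⟩ : ∃ B : ℝ, B = ‖inner ℂ (WithLp.toLp 2 ψ' : Sp n Y)
      (lin (circF G δ w z (Tw T o)) φ)‖ := ⟨_, rfl⟩
    rw [← hA] at h3
    have h5 : g * B ≤ 2 / 100 * τ := by
      have h6 : κ * g / 8 * B ≤ κ * τ / 400 := (h3.trans hdiff).trans hη4
      have h8 : κ * (g * B) ≤ κ * (2 / 100 * τ) := by linarith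
      exact le_of_mul_le_mul_left h8 hκ
    -- the actual circuit
    have h6 : c * inner ℂ (WithLp.toLp 2 ψ' : Sp n Y)
          (lin (circ (Letter.op G z) w z (Tw T o)) (WithLp.toLp 2 ψ)) =
        inner ℂ (WithLp.toLp 2 ψ' : Sp n Y) (lin (circF G δ w z (Tw T o)) φ) -
          inner ℂ (WithLp.toLp 2 ψ' : Sp n Y) (lin (circF G δ w z (Tw T o)) φ -
            lin (circ (Letter.op G z) w z (Tw T o)) φ) -
          inner ℂ (WithLp.toLp 2 ψ' : Sp n Y) (lin (circ (Letter.op G z) w z (Tw T o)) χ) := by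
      rw [inner_sub_right, sub_sub_cancel]
      nth_rewrite 1 [h1]
      rw [map_add, map_smul, inner_add_right, inner_smul_right]
      ring
    have h7 : ‖inner ℂ (WithLp.toLp 2 ψ' : Sp n Y)
        (lin (circ (Letter.op G z) w z (Tw T o)) χ)‖ ≤ ‖χ‖ := by
      refine (norm_inner_le_norm _ _).trans ?_
      rw [hψ1, one_mul]
      exact hnχ
    have h7' : ‖inner ℂ (WithLp.toLp 2 ψ' : Sp n Y)
        (lin (circF G δ w z (Tw T o)) φ -
            lin (circ (Letter.op G z) w z (Tw T o)) φ)‖ ≤ κ * τ / 1600 := by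
      refine (norm_inner_le_norm _ _).trans ?_
      rw [hψ1, one_mul]
      exact hdf
    have h8 : ‖c‖ * ‖inner ℂ (WithLp.toLp 2 ψ' : Sp n Y)
          (lin (circ (Letter.op G z) w z (Tw T o)) (WithLp.toLp 2 ψ))‖ ≤
        B + κ * τ / 1600 + ‖χ‖ := by
      rw [← norm_mul, h6]
      refine (norm_sub_le _ _).trans (add_le_add ((norm_sub_le _ _).trans ?_) h7)
      rw [← hA]
      exact add_le_add (le_refl _) h7'
    rw [div_lt_iff₀ hg0] at ho
    have h9 := mul_le_mul_of_nonneg_left h8 hg0.le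
    have h10 : 99 / 100 * (‖inner ℂ (WithLp.toLp 2 ψ' : Sp n Y)
          (lin (circ (Letter.op G z) w z (Tw T o)) (WithLp.toLp 2 ψ))‖ * g) ≤
        ‖c‖ * (‖inner ℂ (WithLp.toLp 2 ψ' : Sp n Y)
          (lin (circ (Letter.op G z) w z (Tw T o)) (WithLp.toLp 2 ψ))‖ * g) :=
      mul_le_mul_of_nonneg_right hc (mul_nonneg (norm_nonneg _) hg0.le)
    have h11 : g * (κ * τ / 1600) ≤ κ * τ / 1600 := by
      have : 0 ≤ κ * τ / 1600 := by positivity
      nlinarith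
    nlinarith

theorem ch_stepzero (hP : ParY α κ Λ t u ε δ ν r A G w T z) (hg : (2 : ℝ) ^ (-u * n) < g)
    (hg1 : g ≤ 1) {a a' : Fin p → ℝ} {E E' : ℝ} {ψ ψ' : Cube n × Y → ℂ}
    (hn : NodeZ α κ Λ g A G w z a E ψ) (hI : TypeZ κ δ g G w z a E)
    (hn' : NodeZ α κ Λ g A G w z a' E' ψ') (ho : (2 : ℝ) ^ (-u * n) / g < ‖star ψ' ⬝ᵥ ψ‖) :
    TypeZ κ δ g G w z a' E' := by
  refine ch_step hP hg hg1 hn hI hn' none ?_
  have h1 : lin (circ (Letter.op G z) w z (Tw T none)) (WithLp.toLp 2 ψ) =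
      WithLp.toLp 2 ψ := by
    change lin (circ (Letter.op G z) w z []) _ = _
    unfold circ
    rw [List.map_nil, List.prod_nil, lin_one']
  rw [h1, inner_toLp']
  exact ho

theorem ch_stepone (hP : ParY α κ Λ t u ε δ ν r A G w T z) (hg : (2 : ℝ) ^ (-u * n) < g)
    (hg1 : g ≤ 1) {a a' : Fin p → ℝ} {E E' : ℝ} {ψ ψ' : Cube n × Y → ℂ}
    (hn : NodeZ α κ Λ g A G w z a E ψ) (hI : TypeZ κ δ g G w z a E)
    (hn' : NodeZ α κ Λ g A G w z a' E' ψ')
    (ho : ∃ j, (2 : ℝ) ^ (-u * n) / g < ‖star ψ' ⬝ᵥ circ (Letter.op G z) w z (T j) *ᵥ ψ‖) :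
    TypeZ κ δ g G w z a' E' := by
  obtain ⟨j, ho⟩ := ho
  refine ch_step hP hg hg1 hn hI hn' (some j) ?_
  rw [lin_eq, lin_toLp, inner_toLp']
  exact ho

/-- all nodes of a continuous path have the same type -/
theorem ch_path (hP : ParY α κ Λ t u ε δ ν r A G w T z) (hg : (2 : ℝ) ^ (-u * n) < g)
    (hg1 : g ≤ 1) {a : ℝ → Fin p → ℝ} {E : ℝ → ℝ} {ψ : ℝ → Cube n × Y → ℂ}
    (ha : ContinuousOn a (Set.Icc 0 1)) (hE : ContinuousOn E (Set.Icc 0 1))
    (hn : ∀ s ∈ Set.Icc (0 : ℝ) 1, NodeZ α κ Λ g A G w z (a s) (E s) (ψ s))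
    (h0 : TypeZ κ δ g G w z (a 0) (E 0)) {s : ℝ} (hs : s ∈ Set.Icc (0 : ℝ) 1) :
    TypeZ κ δ g G w z (a s) (E s) := by
  obtain ⟨τ, hτ⟩ : ∃ τ : ℝ, τ = (2 : ℝ) ^ (-u * n) := ⟨_, rfl⟩
  have hτ0 : 0 < τ := by rw [hτ]; positivity
  have hg0 : 0 < g := by rw [← hτ] at hg; exact hτ0.trans hg
  have ha' : Continuous fun s : Set.Icc (0 : ℝ) 1 => a s := ha.restrict
  have hE' : Continuous fun s : Set.Icc (0 : ℝ) 1 => E s := hE.restrict
  have hH := continuous_Ham (Letter.op G z) w ha'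
  have hr : τ / g < 1 := by
    rw [div_lt_one hg0, hτ]
    exact hg
  have hr0 : 0 < τ / g := div_pos hτ0 hg0
  -- a step size
  obtain ⟨ε1, hε1, hε2⟩ : ∃ ε1 : ℝ, 0 < ε1 ∧ (τ / g) ^ 2 < 1 - (2 * ε1 / g) ^ 2 := by
    refine ⟨g / 2 * (1 - τ / g), mul_pos (by positivity) (by linarith), ?_⟩
    have h1 : 2 * (g / 2 * (1 - τ / g)) / g = 1 - τ / g := by
      field_simp
    rw [h1]
    nlinarith
  have hloc : IsLocallyConstant fun s : Set.Icc (0 : ℝ) 1 =>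
      TypeZ κ δ g G w z (a s) (E s) := by
    rw [IsLocallyConstant.iff_eventually_eq]
    intro s0
    have h1 : ∀ᶠ s : Set.Icc (0 : ℝ) 1 in nhds s0,
        esum (Ham (Letter.op G z) w (a s) - Ham (Letter.op G z) w (a s0)) < ε1 := by
      have h2 : Continuous fun s : Set.Icc (0 : ℝ) 1 =>
          esum (Ham (Letter.op G z) w (a s) - Ham (Letter.op G z) w (a s0)) :=
        continuous_esum.comp (hH.sub continuous_const)
      have h3 := h2.tendsto s0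
      rw [sub_self] at h3
      have h4 : esum (0 : Op n Y) = 0 := by
        unfold esum
        simp
      rw [h4] at h3
      exact h3.eventually (gt_mem_nhds hε1)
    have h2 : ∀ᶠ s : Set.Icc (0 : ℝ) 1 in nhds s0, |E s - E s0| < ε1 := by
      have h3 : Continuous fun s : Set.Icc (0 : ℝ) 1 => |E s - E s0| :=
        (hE'.sub continuous_const).abs
      have h4 := h3.tendsto s0
      rw [sub_self, abs_zero] at h4
      exact h4.eventually (gt_mem_nhds hε1)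
    filter_upwards [h1, h2] with s hs1 hs2
    have hn0 := hn s0 s0.2
    have hns := hn s s.2
    obtain ⟨k1, k2, k3⟩ := nodeZ_hilbert hn0
    obtain ⟨l1, l2, -⟩ := nodeZ_hilbert hns
    have h5 := overlap_near hg0 k1 l1 k2 l2 k3 (ε := ε1) (by
      rw [lin_eq, lin_eq, ← LinearMap.sub_apply, ← map_sub]
      refine (norm_lin_le_esum _ _).trans ?_
      rw [l1, mul_one]
      exact hs1.le) hs2.le
    have h6 : τ / g < ‖inner ℂ (WithLp.toLp 2 (ψ s0) : Sp n Y) (WithLp.toLp 2 (ψ s))‖ := by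
      by_contra h7
      push Not at h7
      have h8 := pow_le_pow_left₀ (norm_nonneg _) h7 2
      linarith
    have h7 : τ / g < ‖inner ℂ (WithLp.toLp 2 (ψ s) : Sp n Y) (WithLp.toLp 2 (ψ s0))‖ := by
      rwa [norm_inner_symm]
    rw [inner_toLp', hτ] at h6 h7
    refine propext ⟨fun h8 => ?_, fun h8 => ?_⟩
    · exact ch_stepzero hP hg hg1 hns h8 hn0 h6
    · exact ch_stepzero hP hg hg1 hn0 h8 hns h7
  have h1 := hloc.apply_eq_of_preconnectedSpace (⟨0, by simp⟩ : Set.Icc (0 : ℝ) 1) ⟨s, hs⟩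
  simp only at h1
  rw [← h1]
  exact h0

end chain

theorem hard_of_goodX {α κ Λ t u ε δ ν : ℝ} {A : Set (Fin p → ℝ)} (hκ : 0 < κ) (hκ1 : κ ≤ 1)
    (hΛ : 0 ≤ Λ) {G : Fin m → Clause n k} (hS : Std ε δ ν t r G)
    (hsm : Λ * (r * 2 ^ (r + 1)) * (ν + ε + 2 / Real.sqrt (2 ^ k)) ≤ κ / 4)
    (w : Fin p → List (Letter n m Y))
    (T : Fin q → List (Gate n p Y)) (hw : ∀ i, ∀ l ∈ w i, l.Ok t r G)
    (hr : ∀ i, (w i).length ≤ r) (hT : ∀ j, ∀ c ∈ T j, c.Ok t G) (z : Cube n)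
    (hz : GoodX α κ Λ δ (κ * (2 : ℝ) ^ (-u * n) / (1600 * (Λ + 1) * 4 ^ r)) r A G w T z) :
    Hard α κ Λ t u A G w T z := by
  have hP : ParY α κ Λ t u ε δ ν r A G w T z :=
    ⟨hκ, hκ1, hΛ, hS, hsm, hw, hr, hT, hz⟩
  intro g l a E ψ hg hg1 ha0 hpath hjump j L hL
  have hτ0 : (0 : ℝ) < (2 : ℝ) ^ (-u * n) := by positivity
  have hg0 : 0 < g := hτ0.trans hg
  have hnode : ∀ i ≤ l, ∀ s ∈ Set.Icc (0 : ℝ) 1,
      NodeZ α κ Λ g A G w z (a i s) (E i s) (ψ i s) := by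
    intro i hi s hs
    obtain ⟨h0, h1, h2, h3⟩ := (hpath i hi).2.2 s hs
    exact ⟨h0, h1, h2, h3⟩
  have h01 : (0 : ℝ) ∈ Set.Icc (0 : ℝ) 1 := by simp
  have h11 : (1 : ℝ) ∈ Set.Icc (0 : ℝ) 1 := by simp
  have hall : ∀ i ≤ l, ∀ s ∈ Set.Icc (0 : ℝ) 1, TypeZ κ δ g G w z (a i s) (E i s) := by
    intro i
    induction i with
    | zero =>
      intro hi s hs
      have h1 := hpath 0 hi
      exact ch_path hP hg hg1 h1.1 h1.2.1 (hnode 0 hi)
        (typeZ_start hκ hg0 (hnode 0 hi 0 h01) ha0) hs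
    | succ i ih =>
      intro hi s hs
      have h1 := hpath (i + 1) hi
      have hi' : i ≤ l := by omega
      exact ch_path hP hg hg1 h1.1 h1.2.1 (hnode (i + 1) hi)
        (ch_stepone hP hg hg1 (hnode i hi' 1 h11) (ih hi' 1 h11) (hnode (i + 1) hi 0 h01)
          (hjump i (by omega))) hs
  have h2 := ch_out hP hg hg1 (hnode l le_rfl 1 h11) (hall l le_rfl 1 h11) (some j)
  refine le_trans ?_ h2
  have h9 : lin (circ (Letter.op G z) w z (Tw T (some j))) (WithLp.toLp 2 (ψ l 1) : Sp n Y) =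
      WithLp.toLp 2 (circ (Letter.op G z) w z (T j) *ᵥ ψ l 1) := by
    rw [lin_eq, lin_toLp]
    rfl
  rw [h9, ← Real.sqrt_sq (norm_nonneg (nearP (hball δ z)
    (WithLp.toLp 2 (circ (Letter.op G z) w z (T j) *ᵥ ψ l 1) : Sp n Y))), nearP_sq]
  refine Real.sqrt_le_sqrt (sum_le_sum_of_subset_of_nonneg ?_ fun x _ _ =>
    sum_nonneg fun y _ => sq_nonneg _)
  intro x hx
  by_contra hxB
  exact hxB (near_sol hS.hm hS.hG hS.ht z x (hL x hx))

end Pool.Agent.H73.AY
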