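import Pool.Agent.H73.AY.Steps
import Pool.Agent.H73.QA.Num

/-! The numbers of the circuits. -/

namespace Pool.Agent.H73.AY

open Finset Matrix Pool.Agent.H73.QA Pool.Agent.H73.AD Pool.Agent.H73.AZ

theorem two_rpow_exp (s : ℝ) : (2 : ℝ) ^ s = Real.exp (s * Real.log 2) := by
  rw [Real.rpow_def_of_pos two_pos, mul_comm]

theorem grd_exists {e L : ℝ} (r : ℕ) (he : 0 < e) (hL : 0 ≤ L) :
    ∃ (c0 τ : ℝ) (n₀ : ℕ), 0 < c0 ∧ 0 < τ ∧ ∀ n ≥ n₀, ∀ θ β d : ℝ, 0 ≤ θ → θ ≤ τ → 1 ≤ β →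
      0 ≤ d → d ≤ c0 * n → Grd θ β (L * n) d (2 ^ (e * n)) n r := by
  have hl := Real.log_two_gt_d9
  obtain ⟨l, hl2⟩ : ∃ l : ℝ, l = Real.log 2 := ⟨_, rfl⟩
  rw [← hl2] at hl
  have hl0 : 0 < l := by linarith
  obtain ⟨E, hE⟩ : ∃ E : ℝ, E = Real.exp 1 * 16 ^ r := ⟨_, rfl⟩
  have hE0 : 0 < E := by rw [hE]; positivity
  obtain ⟨x, hx⟩ : ∃ x : ℝ, x = min 1 (e / 8 * l / (4 * E * (L + 1))) := ⟨_, rfl⟩
  have hx0 : 0 < x := by rw [hx]; exact lt_min one_pos (by positivity)
  have hx1 : x ≤ 1 := by rw [hx]; exact min_le_left _ _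
  have hxL : x * (4 * E * L) ≤ e / 8 * l := by
    have h1 : x ≤ e / 8 * l / (4 * E * (L + 1)) := by rw [hx]; exact min_le_right _ _
    rw [le_div_iff₀ (by positivity)] at h1
    nlinarith [mul_pos hx0 hE0]
  have hlx : 0 ≤ Real.log (1 / x) := Real.log_nonneg ((one_le_div hx0).2 hx1)
  obtain ⟨Q, hQ1, hQ⟩ : ∃ Q : ℕ, 1 ≤ Q ∧ Real.log (1 / x) ≤ Q * (e / 8 * l) := by
    refine ⟨⌈Real.log (1 / x) / (e / 8 * l)⌉₊ + 1, by omega, ?_⟩
    have h1 := Nat.le_ceil (Real.log (1 / x) / (e / 8 * l))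
    rw [div_le_iff₀ (by positivity)] at h1
    push_cast
    have h2 : 0 < e / 8 * l := by positivity
    linarith
  obtain ⟨y, hy⟩ : ∃ y : ℝ, y = 2 ^ Q := ⟨_, rfl⟩
  have hy0 : 0 < y := by rw [hy]; positivity
  obtain ⟨n₀, hn₀⟩ := lin_le_exp (c := e / 8) (by positivity) (A := 2 / x + 1) (by positivity)
  refine ⟨e / 8 * l / (2 * E), 1 / (8 * (L + 1) * (1 + y)), n₀, by positivity, by positivity,
    fun n hn θ β d hθ hθτ hβ hd hdc => ⟨by positivity, hd, x, y, n / Q + 1, hx0, hx1, hy0, ?_, ?_⟩⟩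
  · -- the many insertions
    have hn0 : (0 : ℝ) ≤ n := Nat.cast_nonneg n
    have h1 : θ * (L * n) * (1 + y) ≤ n / 8 := by
      rw [le_div_iff₀ (by positivity)] at hθτ
      have h2 : θ * L * (1 + y) ≤ 1 / 8 := by
        have : 0 ≤ θ * (1 + y) := by positivity
        nlinarith
      calc θ * (L * n) * (1 + y) = θ * L * (1 + y) * n := by ring
        _ ≤ 1 / 8 * n := mul_le_mul_of_nonneg_right h2 hn0
        _ = n / 8 := by ring
    have h2 : θ * (L * n) ≤ n / 8 := by
      have h3 : 0 ≤ θ * (L * n) := by positivity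
      nlinarith
    have h3 : (1 / y) ^ (n / Q + 1) ≤ Real.exp (-(n * l)) := by
      have h4 : n ≤ Q * (n / Q + 1) := by
        have := Nat.div_add_mod n Q
        have h5 := Nat.mod_lt n (show 0 < Q by omega)
        nlinarith
      rw [hy, one_div, ← inv_pow, ← pow_mul]
      calc (2 : ℝ)⁻¹ ^ (Q * (n / Q + 1)) ≤ 2⁻¹ ^ n :=
            pow_le_pow_of_le_one (by norm_num) (by norm_num) h4
        _ = Real.exp (-(n * l)) := by
            rw [hl2, Real.exp_neg, Real.exp_nat_mul, Real.exp_log two_pos, inv_pow]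
    have h4 : Real.sqrt (2 ^ n) = Real.exp (n * l / 2) := by
      have h2n : (2 : ℝ) ^ n = Real.exp (n * l) := by
        rw [hl2, Real.exp_nat_mul, Real.exp_log two_pos]
      rw [h2n, Real.sqrt_eq_rpow, ← Real.exp_mul]
      congr 1
      ring
    have h5 : Real.exp ((1 + y) * (θ * (L * n))) ≤ Real.exp (n / 8) :=
      Real.exp_le_exp.2 (by linarith)
    have h6 : (n : ℝ) / 8 * Real.exp (-(n / 8)) ≤ 1 := by
      have h7 := Real.add_one_le_exp ((n : ℝ) / 8)
      rw [Real.exp_neg, ← div_eq_mul_inv, div_le_one (Real.exp_pos _)]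
      linarith
    rw [h4]
    calc θ * (L * n) * ((1 / y) ^ (n / Q + 1) * Real.exp ((1 + y) * (θ * (L * n)))) *
          Real.exp (n * l / 2) ≤
        n / 8 * (Real.exp (-(n * l)) * Real.exp (n / 8)) * Real.exp (n * l / 2) := by
          refine mul_le_mul_of_nonneg_right ?_ (Real.exp_pos _).le
          exact mul_le_mul h2 (mul_le_mul h3 h5 (Real.exp_pos _).le (Real.exp_pos _).le)
            (by positivity) (by positivity)
      _ = n / 8 * Real.exp (-(n * l) + n / 8 + n * l / 2) := by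
          rw [Real.exp_add, Real.exp_add]; ring
      _ ≤ n / 8 * Real.exp (-(n / 8)) := by
          refine mul_le_mul_of_nonneg_left (Real.exp_le_exp.2 ?_) (by positivity)
          nlinarith
      _ ≤ 1 := h6
      _ ≤ β := hβ
  · -- the few insertions
    have hn0 : (0 : ℝ) ≤ n := Nat.cast_nonneg n
    have h1 : (1 / x) ^ (n / Q + 1) ≤ 1 / x * Real.exp (e / 8 * l * n) := by
      rw [pow_succ']
      refine mul_le_mul_of_nonneg_left ?_ (by positivity)
      have h2 : (1 / x) ^ (n / Q) = Real.exp ((n / Q : ℕ) * Real.log (1 / x)) := by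
        rw [Real.exp_nat_mul, Real.exp_log (by positivity)]
      rw [h2]
      refine Real.exp_le_exp.2 ?_
      have h3 : ((n / Q : ℕ) : ℝ) * Q ≤ n := by exact_mod_cast Nat.div_mul_le_self n Q
      have h4 : 0 < e / 8 * l := by positivity
      calc ((n / Q : ℕ) : ℝ) * Real.log (1 / x) ≤ (n / Q : ℕ) * (Q * (e / 8 * l)) :=
            mul_le_mul_of_nonneg_left hQ (Nat.cast_nonneg _)
        _ = ((n / Q : ℕ) : ℝ) * Q * (e / 8 * l) := by ring
        _ ≤ n * (e / 8 * l) := mul_le_mul_of_nonneg_right h3 h4.le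
        _ = e / 8 * l * n := by ring
    have h2 : Real.exp (2 * Real.exp 1 * 16 ^ r * d +
        x * (4 * Real.exp 1 * 16 ^ r * (L * n))) ≤ Real.exp (e / 4 * l * n) := by
      refine Real.exp_le_exp.2 ?_
      have h3 : 2 * Real.exp 1 * 16 ^ r * d ≤ e / 8 * l * n := by
        have h4 : 2 * Real.exp 1 * 16 ^ r * d = 2 * E * d := by rw [hE]; ring
        rw [h4]
        calc 2 * E * d ≤ 2 * E * (e / 8 * l / (2 * E) * n) :=
              mul_le_mul_of_nonneg_left hdc (by positivity)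
          _ = e / 8 * l * n := by field_simp
      have h5 : x * (4 * Real.exp 1 * 16 ^ r * (L * n)) ≤ e / 8 * l * n := by
        have h4 : x * (4 * Real.exp 1 * 16 ^ r * (L * n)) = x * (4 * E * L) * n := by
          rw [hE]; ring
        rw [h4]
        exact mul_le_mul_of_nonneg_right hxL hn0
      linarith
    have h3 : ((n / Q + 1 : ℕ) : ℝ) + 1 ≤ n + 2 := by
      have : n / Q ≤ n := Nat.div_le_self n Q
      have h4 : ((n / Q : ℕ) : ℝ) ≤ n := by exact_mod_cast this
      push_cast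
      linarith
    have h4 := hn₀ n hn
    have h5 : 1 ≤ Real.exp (e * 3 / 8 * l * n) := Real.one_le_exp (by positivity)
    have h6 : (2 : ℝ) ^ (e / 8 * n) * Real.exp (e * 3 / 8 * l * n) ≤ 2 ^ (e * n) := by
      rw [two_rpow_exp, two_rpow_exp, ← Real.exp_add, ← hl2]
      refine Real.exp_le_exp.2 ?_
      have : 0 ≤ e * l * n := by positivity
      nlinarith
    have h7 : (n + 2) * (1 / x) + 1 ≤ (2 / x + 1) * ((n : ℝ) + 1) := by
      have h8 : 0 < 1 / x := by positivity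
      have h9 : (2 / x + 1) * ((n : ℝ) + 1) = (2 * n + 2) * (1 / x) + n + 1 := by ring
      rw [h9]
      nlinarith [mul_nonneg hn0 h8.le]
    calc _ ≤ (n + 2) * (1 / x * Real.exp (e / 8 * l * n) * Real.exp (e / 4 * l * n)) + 1 := by
          refine add_le_add ?_ le_rfl
          exact mul_le_mul h3 (mul_le_mul h1 h2 (Real.exp_pos _).le (by positivity))
            (by positivity) (by positivity)
      _ = (n + 2) * (1 / x) * Real.exp (e * 3 / 8 * l * n) + 1 := by
          rw [mul_assoc (1 / x), ← Real.exp_add]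
          have : e / 8 * l * n + e / 4 * l * n = e * 3 / 8 * l * n := by ring
          rw [this]
          ring
      _ ≤ ((n + 2) * (1 / x) + 1) * Real.exp (e * 3 / 8 * l * n) := by nlinarith
      _ ≤ (2 : ℝ) ^ (e / 8 * n) * Real.exp (e * 3 / 8 * l * n) :=
          mul_le_mul_of_nonneg_right (h7.trans h4) (Real.exp_pos _).le
      _ ≤ _ := h6

end Pool.Agent.H73.AY
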